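import Mathlib

/-!
# Escape sequences of rotor walks on trees are closed downwards
-/

namespace Pool.Agent.Results.MP_4b601f_co.DownwardClosure

open Filter

/-! ## Definitions -/

/-- The parent of a vertex different from the root; `none` is the root `ρ`. A vertex different
from `ρ` is coded by the list of child indices leading to it, the last step being the head of the
list: the unique child of `ρ` is `[]`, and the `i`-th child of `v` is `i :: v`. -/
def parent : List ℕ → Option (List ℕ)
  | [] => none
  | _ :: v => some v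

/-- One step of the rotor walk in the tree in which `v` has `b v` children. A state consists of the
position of the particle and the rotor configuration. -/
def step (b : List ℕ → ℕ) : Option (List ℕ) × (List ℕ → ℕ) → Option (List ℕ) × (List ℕ → ℕ)
  | (none, r) => (some [], r)
  | (some v, r) =>
    (if (r v + 1) % (b v + 1) = 0 then parent v else some ((r v + 1) % (b v + 1) :: v),
      Function.update r v ((r v + 1) % (b v + 1)))

/-- The state after `t` steps of a particle started at `ρ` with rotor configuration `r`. -/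
def walk (b r : List ℕ → ℕ) (t : ℕ) : Option (List ℕ) × (List ℕ → ℕ) := (step b)^[t] (none, r)

/-- The particle started at `ρ` with rotor configuration `r` returns to `ρ`. -/
def Returns (b r : List ℕ → ℕ) : Prop := ∃ t, 1 ≤ t ∧ (walk b r t).1 = none

open Classical in
/-- The limiting value of an eventually constant sequence. -/
noncomputable def evLim (f : ℕ → ℕ) : ℕ :=
  if h : ∃ c, ∀ᶠ t in atTop, f t = c then h.choose else 0

open Classical in
/-- The rotor configuration after the particle has returned to `ρ`, or the limiting rotor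
configuration if the particle escapes. -/
noncomputable def after (b r : List ℕ → ℕ) : List ℕ → ℕ :=
  if h : Returns b r then (walk b r (Nat.find h)).2 else fun v => evLim fun t => (walk b r t).2 v

open Classical in
/-- The escape sequence: the entry with index `n` belongs to particle `n + 1`. -/
noncomputable def escSeq (b r : List ℕ → ℕ) (n : ℕ) : ℕ :=
  if Returns b ((after b)^[n] r) then 0 else 1

/-! ## Eventual limits -/

lemma evLim_eq {f : ℕ → ℕ} {c : ℕ} (h : ∀ᶠ t in atTop, f t = c) : evLim f = c := by
  have hex : ∃ c, ∀ᶠ t in atTop, f t = c := ⟨c, h⟩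
  rw [evLim, dif_pos hex]
  obtain ⟨t, ht1, ht2⟩ := (hex.choose_spec.and h).exists
  rw [← ht1, ← ht2]

lemma evLim_shift (f : ℕ → ℕ) (k : ℕ) : evLim (fun t => f (t + k)) = evLim f := by
  have key : ∀ c, (∀ᶠ t in atTop, f (t + k) = c) ↔ ∀ᶠ t in atTop, f t = c := by
    intro c
    rw [eventually_atTop, eventually_atTop]
    constructor
    · rintro ⟨a, ha⟩
      refine ⟨a + k, fun t ht => ?_⟩
      have := ha (t - k) (by omega)
      rwa [Nat.sub_add_cancel (by omega)] at this
    · rintro ⟨a, ha⟩
      exact ⟨a, fun t ht => ha (t + k) (by omega)⟩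
  by_cases h : ∃ c, ∀ᶠ t in atTop, f t = c
  · obtain ⟨c, hc⟩ := h
    rw [evLim_eq hc, evLim_eq ((key c).2 hc)]
  · have h' : ¬ ∃ c, ∀ᶠ t in atTop, f (t + k) = c := fun ⟨c, hc⟩ => h ⟨c, (key c).1 hc⟩
    rw [evLim, evLim, dif_neg h, dif_neg h']

lemma evLim_const (c : ℕ) : evLim (fun _ => c) = c := evLim_eq (Eventually.of_forall fun _ => rfl)

/-! ## Running from an arbitrary state -/

/-- The particle reaches `ρ` from the state `s`. -/
def Ret (b : List ℕ → ℕ) (s : Option (List ℕ) × (List ℕ → ℕ)) : Prop :=
  ∃ t, ((step b)^[t] s).1 = none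

open Classical in
/-- The final configuration. -/
noncomputable def fin (b : List ℕ → ℕ) (s : Option (List ℕ) × (List ℕ → ℕ)) : List ℕ → ℕ :=
  if h : Ret b s then ((step b)^[Nat.find h] s).2 else fun v => evLim fun t => ((step b)^[t] s).2 v

lemma ret_step {b : List ℕ → ℕ} {s : Option (List ℕ) × (List ℕ → ℕ)} (hs : s.1 ≠ none) :
    Ret b (step b s) ↔ Ret b s := by
  constructor
  · rintro ⟨t, ht⟩
    exact ⟨t + 1, by rwa [Function.iterate_succ_apply]⟩
  · rintro ⟨t, ht⟩
    rcases t with _ | t
    · exact absurd ht hs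
    · exact ⟨t, by rwa [Function.iterate_succ_apply] at ht⟩

lemma fin_step {b : List ℕ → ℕ} {s : Option (List ℕ) × (List ℕ → ℕ)} (hs : s.1 ≠ none) :
    fin b (step b s) = fin b s := by
  classical
  by_cases h : Ret b s
  · have h' := (ret_step hs).2 h
    rw [fin, fin, dif_pos h, dif_pos h']
    have e : Nat.find h = Nat.find h' + 1 := by
      refine (Nat.find_eq_iff _).2 ⟨?_, ?_⟩
      · rw [Function.iterate_succ_apply]
        exact Nat.find_spec h'
      · intro n hn
        rcases n with _ | n
        · exact hs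
        · rw [Function.iterate_succ_apply]
          exact Nat.find_min h' (by omega)
    rw [e, Function.iterate_succ_apply]
  · have h' : ¬ Ret b (step b s) := fun h' => h ((ret_step hs).1 h')
    rw [fin, fin, dif_neg h, dif_neg h']
    funext v
    exact evLim_shift (fun t => ((step b)^[t] s).2 v) 1

lemma ret_iter {b : List ℕ → ℕ} {s : Option (List ℕ) × (List ℕ → ℕ)} (k : ℕ)
    (hs : ∀ t < k, ((step b)^[t] s).1 ≠ none) :
    (Ret b ((step b)^[k] s) ↔ Ret b s) ∧ fin b ((step b)^[k] s) = fin b s := by
  induction k with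
  | zero => exact ⟨Iff.rfl, rfl⟩
  | succ k ih =>
    obtain ⟨h1, h2⟩ := ih (fun t ht => hs t (by omega))
    rw [Function.iterate_succ_apply']
    exact ⟨(ret_step (hs k (by omega))).trans h1, (fin_step (hs k (by omega))).trans h2⟩

lemma walk_succ (b r : List ℕ → ℕ) (t : ℕ) : walk b r (t + 1) = (step b)^[t] (some [], r) := by
  rw [walk, Function.iterate_succ_apply]
  rfl

lemma returns_iff (b r : List ℕ → ℕ) : Returns b r ↔ Ret b (some [], r) := by
  constructor
  · rintro ⟨t, ht, h⟩
    obtain ⟨s, rfl⟩ : ∃ s, t = s + 1 := ⟨t - 1, by omega⟩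
    rw [walk_succ] at h
    exact ⟨s, h⟩
  · rintro ⟨t, h⟩
    exact ⟨t + 1, by omega, by rwa [walk_succ]⟩

lemma after_eq (b r : List ℕ → ℕ) : after b r = fin b (some [], r) := by
  classical
  by_cases h : Returns b r
  · have h' := (returns_iff b r).1 h
    rw [after, fin, dif_pos h, dif_pos h']
    have e : Nat.find h = Nat.find h' + 1 := by
      refine (Nat.find_eq_iff _).2 ⟨⟨by omega, ?_⟩, ?_⟩
      · rw [walk_succ]
        exact Nat.find_spec h'
      · intro n hn hh
        obtain ⟨s, rfl⟩ : ∃ s, n = s + 1 := ⟨n - 1, by omega⟩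
        rw [walk_succ] at hh
        exact Nat.find_min h' (by omega) hh.2
    rw [e, walk_succ]
  · have h' : ¬ Ret b (some [], r) := fun h' => h ((returns_iff b r).2 h')
    rw [after, fin, dif_neg h, dif_neg h']
    funext v
    rw [← evLim_shift (fun t => (walk b r t).2 v) 1]
    simp only [walk_succ]

/-! ## Subtrees -/

/-- The restriction to the subtree of the `i`-th child of `[]`. -/
def sub (b : List ℕ → ℕ) (i : ℕ) : List ℕ → ℕ := fun l => b (l ++ [i])

/-- Replace the values in the subtree of the `i`-th child of `[]`. -/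
def put (R : List ℕ → ℕ) (i : ℕ) (c : List ℕ → ℕ) : List ℕ → ℕ :=
  fun v => if v.getLast? = some i then c v.dropLast else R v

lemma put_nil (R : List ℕ → ℕ) (i : ℕ) (c : List ℕ → ℕ) : put R i c [] = R [] := by
  simp [put]

lemma put_same (R : List ℕ → ℕ) (i : ℕ) (c : List ℕ → ℕ) (l : List ℕ) :
    put R i c (l ++ [i]) = c l := by
  simp [put]

lemma put_other (R : List ℕ → ℕ) {i j : ℕ} (h : j ≠ i) (c : List ℕ → ℕ) (l : List ℕ) :
    put R i c (l ++ [j]) = R (l ++ [j]) := by
  simp [put, h]

lemma sub_put_same (R : List ℕ → ℕ) (i : ℕ) (c : List ℕ → ℕ) : sub (put R i c) i = c := by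
  funext l
  exact put_same R i c l

lemma sub_put_other (R : List ℕ → ℕ) {i j : ℕ} (h : j ≠ i) (c : List ℕ → ℕ) :
    sub (put R i c) j = sub R j := by
  funext l
  exact put_other R h c l

lemma list_cases (v : List ℕ) : v = [] ∨ ∃ l i, v = l ++ [i] := by
  rcases List.eq_nil_or_concat v with h | ⟨l, i, h⟩
  · exact Or.inl h
  · exact Or.inr ⟨l, i, by rw [h, List.concat_eq_append]⟩

lemma put_update (R : List ℕ → ℕ) (i : ℕ) (c : List ℕ → ℕ) (l : List ℕ) (k : ℕ) :
    put R i (Function.update c l k) = Function.update (put R i c) (l ++ [i]) k := by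
  funext v
  rcases list_cases v with rfl | ⟨l', j, rfl⟩
  · rw [put_nil, Function.update_of_ne (by simp), put_nil]
  · by_cases hj : j = i
    · subst hj
      rw [put_same]
      by_cases hl : l' = l
      · subst hl
        rw [Function.update_self, Function.update_self]
      · rw [Function.update_of_ne hl, Function.update_of_ne (by simpa using hl), put_same]
    · rw [put_other _ hj, Function.update_of_ne (by simp [hj]), put_other _ hj]

lemma put_sub (R : List ℕ → ℕ) (i : ℕ) : put R i (sub R i) = R := by
  funext v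
  rcases list_cases v with rfl | ⟨l', j, rfl⟩
  · rw [put_nil]
  · by_cases hj : j = i
    · subst hj
      rw [put_same]
      rfl
    · rw [put_other _ hj]

lemma sub_update_nil (R : List ℕ → ℕ) (i k : ℕ) : sub (Function.update R [] k) i = sub R i := by
  funext l
  simp [sub]

/-- A state of the subtree, seen in the whole tree. -/
def emb (R : List ℕ → ℕ) (i : ℕ) (s : Option (List ℕ) × (List ℕ → ℕ)) :
    Option (List ℕ) × (List ℕ → ℕ) :=
  (some (match s.1 with
    | none => []
    | some l => l ++ [i]), put R i s.2)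

lemma step_emb (b R : List ℕ → ℕ) (i : ℕ) (s : Option (List ℕ) × (List ℕ → ℕ))
    (hs : s.1 ≠ none) : step b (emb R i s) = emb R i (step (sub b i) s) := by
  obtain ⟨p, c⟩ := s
  rcases p with _ | l
  · exact absurd rfl hs
  · have hk : (put R i c (l ++ [i]) + 1) % (b (l ++ [i]) + 1) = (c l + 1) % (sub b i l + 1) := by
      rw [put_same]
      rfl
    show (if (put R i c (l ++ [i]) + 1) % (b (l ++ [i]) + 1) = 0 then parent (l ++ [i])
        else some ((put R i c (l ++ [i]) + 1) % (b (l ++ [i]) + 1) :: (l ++ [i])),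
      Function.update (put R i c) (l ++ [i]) ((put R i c (l ++ [i]) + 1) % (b (l ++ [i]) + 1))) =
      emb R i (if (c l + 1) % (sub b i l + 1) = 0 then parent l
        else some ((c l + 1) % (sub b i l + 1) :: l),
        Function.update c l ((c l + 1) % (sub b i l + 1)))
    rw [hk, ← put_update]
    by_cases h : (c l + 1) % (sub b i l + 1) = 0
    · rw [if_pos h, if_pos h]
      rcases l with _ | ⟨x, l⟩ <;> rfl
    · rw [if_neg h, if_neg h]
      rfl

lemma iter_emb (b R : List ℕ → ℕ) (i : ℕ) (s : Option (List ℕ) × (List ℕ → ℕ)) (k : ℕ)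
    (hs : ∀ t < k, ((step (sub b i))^[t] s).1 ≠ none) :
    (step b)^[k] (emb R i s) = emb R i ((step (sub b i))^[k] s) := by
  induction k with
  | zero => rfl
  | succ k ih =>
    rw [Function.iterate_succ_apply', Function.iterate_succ_apply', ih (fun t ht => hs t (by omega)),
      step_emb _ _ _ _ (hs k (by omega))]

/-! ## What one particle does -/

/-- The configuration after the particle has been sent to the next child. -/
noncomputable def next (b r : List ℕ → ℕ) : List ℕ → ℕ :=
  put (Function.update r [] (r [] + 1)) (r [] + 1) (after (sub b (r [] + 1)) (sub r (r [] + 1)))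

lemma next_nil (b r : List ℕ → ℕ) : next b r [] = r [] + 1 := by
  rw [next, put_nil, Function.update_self]

lemma sub_next_same (b r : List ℕ → ℕ) :
    sub (next b r) (r [] + 1) = after (sub b (r [] + 1)) (sub r (r [] + 1)) := by
  rw [next, sub_put_same]

lemma sub_next_other (b r : List ℕ → ℕ) {i : ℕ} (h : i ≠ r [] + 1) :
    sub (next b r) i = sub r i := by
  rw [next, sub_put_other _ h, sub_update_nil]

lemma case_last (b r : List ℕ → ℕ) (h : r [] = b []) :
    Returns b r ∧ after b r = Function.update r [] 0 := by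
  classical
  have e : step b (some [], r) = (none, Function.update r [] 0) := by
    simp [step, h, parent]
  have h1 : Ret b (step b (some [], r)) := ⟨0, by rw [e]; rfl⟩
  refine ⟨(returns_iff b r).2 ((ret_step (by simp)).1 h1), ?_⟩
  rw [after_eq, ← fin_step (by simp), fin, dif_pos h1]
  have e2 : Nat.find h1 = 0 := (Nat.find_eq_zero _).2 (by rw [e]; rfl)
  rw [e2, e]
  rfl

lemma first_step (b r : List ℕ → ℕ) (h : r [] < b []) :
    step b (some [], r) = emb (Function.update r [] (r [] + 1)) (r [] + 1)
      (some [], sub r (r [] + 1)) := by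
  have e : (r [] + 1) % (b [] + 1) = r [] + 1 := Nat.mod_eq_of_lt (by omega)
  have e2 : sub r (r [] + 1) = sub (Function.update r [] (r [] + 1)) (r [] + 1) :=
    (sub_update_nil _ _ _).symm
  rw [e2]
  simp only [step, e, emb, put_sub]
  simp

lemma case_return (b r : List ℕ → ℕ) (h : r [] < b [])
    (hret : Returns (sub b (r [] + 1)) (sub r (r [] + 1))) :
    (Returns b r ↔ Returns b (next b r)) ∧ after b r = after b (next b r) := by
  classical
  have hr := (returns_iff _ _).1 hret
  have hmin : ∀ t < Nat.find hr, ((step (sub b (r [] + 1)))^[t] (some [], sub r (r [] + 1))).1 ≠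
      none := fun t ht => Nat.find_min hr ht
  have h1 := iter_emb b (Function.update r [] (r [] + 1)) (r [] + 1)
    (some [], sub r (r [] + 1)) (Nat.find hr) hmin
  have hfin : (step (sub b (r [] + 1)))^[Nat.find hr] (some [], sub r (r [] + 1)) =
      (none, after (sub b (r [] + 1)) (sub r (r [] + 1))) := by
    refine Prod.ext (Nat.find_spec hr) ?_
    rw [after_eq, fin, dif_pos hr]
  rw [hfin, ← first_step b r h] at h1
  have h2 := ret_iter (b := b) (s := step b (some [], r)) (Nat.find hr) (by
    intro t ht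
    rw [first_step b r h, iter_emb _ _ _ _ _ (fun t' ht' => hmin t' (by omega))]
    simp [emb])
  rw [h1] at h2
  have h3 : emb (Function.update r [] (r [] + 1)) (r [] + 1)
      (none, after (sub b (r [] + 1)) (sub r (r [] + 1))) = (some [], next b r) := rfl
  rw [h3] at h2
  rw [returns_iff, returns_iff, after_eq, after_eq, h2.1, h2.2, fin_step (by simp)]
  exact ⟨(ret_step (by simp)).symm, rfl⟩

lemma case_escape (b r : List ℕ → ℕ) (h : r [] < b [])
    (hret : ¬ Returns (sub b (r [] + 1)) (sub r (r [] + 1))) :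
    ¬ Returns b r ∧ after b r = next b r := by
  classical
  have hr : ¬ Ret (sub b (r [] + 1)) (some [], sub r (r [] + 1)) :=
    fun h' => hret ((returns_iff _ _).2 h')
  have hne : ∀ t, ((step (sub b (r [] + 1)))^[t] (some [], sub r (r [] + 1))).1 ≠ none :=
    fun t ht => hr ⟨t, ht⟩
  have h1 : ∀ t, (step b)^[t] (step b (some [], r)) =
      emb (Function.update r [] (r [] + 1)) (r [] + 1)
        ((step (sub b (r [] + 1)))^[t] (some [], sub r (r [] + 1))) := by
    intro t
    rw [first_step b r h, iter_emb _ _ _ _ _ (fun t' _ => hne t')]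
  have h2 : ¬ Ret b (step b (some [], r)) := by
    rintro ⟨t, ht⟩
    rw [h1] at ht
    simp [emb] at ht
  refine ⟨fun h' => h2 ((ret_step (by simp)).2 ((returns_iff b r).1 h')), ?_⟩
  rw [after_eq, ← fin_step (by simp), fin, dif_neg h2]
  funext v
  simp only [h1, emb]
  rcases list_cases v with rfl | ⟨l, i, rfl⟩
  · simp only [put_nil]
    rw [evLim_const, next_nil, Function.update_self]
  · by_cases hi : i = r [] + 1
    · subst hi
      simp only [put_same]
      rw [next, put_same, after_eq, fin, dif_neg hr]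
    · simp only [put_other _ hi]
      rw [evLim_const, next, put_other _ hi]

/-! ## Valid configurations -/

lemma valid_iter {b r : List ℕ → ℕ} (hr : ∀ v, r v ≤ b v) (t : ℕ) :
    ∀ v, ((step b)^[t] (some [], r)).2 v ≤ b v := by
  induction t with
  | zero => exact hr
  | succ t ih =>
    intro v
    rw [Function.iterate_succ_apply']
    generalize (step b)^[t] (some [], r) = s at ih
    obtain ⟨p, c⟩ := s
    rcases p with _ | l
    · exact ih v
    · show Function.update c l ((c l + 1) % (b l + 1)) v ≤ b v
      by_cases hv : v = l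
      · subst hv
        rw [Function.update_self]
        exact Nat.lt_succ_iff.1 (Nat.mod_lt _ (Nat.succ_pos _))
      · rw [Function.update_of_ne hv]
        exact ih v

lemma valid_after {b r : List ℕ → ℕ} (hr : ∀ v, r v ≤ b v) (v : List ℕ) : after b r v ≤ b v := by
  rw [after_eq, fin]
  split_ifs with h
  · exact valid_iter hr _ v
  · show evLim (fun t => ((step b)^[t] (some [], r)).2 v) ≤ b v
    unfold evLim
    split_ifs with h'
    · obtain ⟨t, ht⟩ := h'.choose_spec.exists
      rw [← ht]
      exact valid_iter hr t v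
    · exact Nat.zero_le _

lemma valid_next {b r : List ℕ → ℕ} (h : r [] < b []) (hr : ∀ v, r v ≤ b v) (v : List ℕ) :
    next b r v ≤ b v := by
  rcases list_cases v with rfl | ⟨l, i, rfl⟩
  · rw [next_nil]
    omega
  · by_cases hi : i = r [] + 1
    · subst hi
      rw [next, put_same]
      exact valid_after (b := sub b (r [] + 1)) (r := sub r (r [] + 1)) (fun w => hr _) l
    · rw [next, put_other _ hi, Function.update_of_ne (by simp)]
      exact hr _

lemma shift_ev {f : ℕ → ℕ} (k : ℕ) (h : ∃ c, ∀ᶠ t in atTop, f (t + k) = c) :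
    ∃ c, ∀ᶠ t in atTop, f t = c := by
  obtain ⟨c, hc⟩ := h
  refine ⟨c, ?_⟩
  rw [eventually_atTop] at hc ⊢
  obtain ⟨a, ha⟩ := hc
  refine ⟨a + k, fun t ht => ?_⟩
  have := ha (t - k) (by omega)
  rwa [Nat.sub_add_cancel (by omega)] at this

/-- If the particle escapes, then every rotor is eventually constant, so that `evLim` is really the
limit in the definition of `after`. -/
lemma rotor_converges (n : ℕ) : ∀ (b : List ℕ → ℕ) (k : ℕ) (r : List ℕ → ℕ), r [] ≤ b [] →
    (∀ v, r v ≤ b v) → b [] - r [] = k → ¬ Ret b (some [], r) → ∀ v, v.length ≤ n →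
    ∃ c, ∀ᶠ t in atTop, ((step b)^[t] (some [], r)).2 v = c := by
  classical
  induction n with
  | zero =>
    intro b k
    induction k with
    | zero =>
      intro r h1 _ h2 h3
      exact absurd ((returns_iff b r).1 (case_last b r (by omega)).1) h3
    | succ k ih =>
      intro r h1 hval h2 h3 v hv
      have h : r [] < b [] := by omega
      have hv0 : v = [] := List.length_eq_zero_iff.1 (by omega)
      subst hv0
      by_cases hret : Returns (sub b (r [] + 1)) (sub r (r [] + 1))
      · have hr := (returns_iff _ _).1 hret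
        have hmin : ∀ t < Nat.find hr,
            ((step (sub b (r [] + 1)))^[t] (some [], sub r (r [] + 1))).1 ≠ none :=
          fun t ht => Nat.find_min hr ht
        have h4 := iter_emb b (Function.update r [] (r [] + 1)) (r [] + 1)
          (some [], sub r (r [] + 1)) (Nat.find hr) hmin
        have hfin : (step (sub b (r [] + 1)))^[Nat.find hr] (some [], sub r (r [] + 1)) =
            (none, after (sub b (r [] + 1)) (sub r (r [] + 1))) := by
          refine Prod.ext (Nat.find_spec hr) ?_
          rw [after_eq, fin, dif_pos hr]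
        rw [hfin, ← first_step b r h, ← Function.iterate_succ_apply] at h4
        apply shift_ev (Nat.find hr + 1)
        have h5 : ∀ t, (step b)^[t + (Nat.find hr + 1)] (some [], r) =
            (step b)^[t] (some [], next b r) := by
          intro t
          rw [Function.iterate_add_apply, h4]
          rfl
        simp only [h5]
        refine ih (next b r) (by rw [next_nil]; omega) ?_ (by rw [next_nil]; omega) ?_ [] le_rfl
        · exact fun w => valid_next h hval w
        · intro h6
          exact h3 ((returns_iff b r).1 ((case_return b r h hret).1.2 ((returns_iff _ _).2 h6)))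
      · have hr : ¬ Ret (sub b (r [] + 1)) (some [], sub r (r [] + 1)) :=
          fun h' => hret ((returns_iff _ _).2 h')
        apply shift_ev 1
        refine ⟨r [] + 1, Eventually.of_forall fun t => ?_⟩
        rw [Function.iterate_succ_apply, first_step b r h,
          iter_emb _ _ _ _ _ (fun t' _ ht' => hr ⟨t', ht'⟩)]
        simp only [emb, put_nil, Function.update_self]
  | succ n ihn =>
    intro b k
    induction k with
    | zero =>
      intro r h1 _ h2 h3
      exact absurd ((returns_iff b r).1 (case_last b r (by omega)).1) h3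
    | succ k ih =>
      intro r h1 hval h2 h3 v hv
      have h : r [] < b [] := by omega
      by_cases hret : Returns (sub b (r [] + 1)) (sub r (r [] + 1))
      · have hr := (returns_iff _ _).1 hret
        have hmin : ∀ t < Nat.find hr,
            ((step (sub b (r [] + 1)))^[t] (some [], sub r (r [] + 1))).1 ≠ none :=
          fun t ht => Nat.find_min hr ht
        have h4 := iter_emb b (Function.update r [] (r [] + 1)) (r [] + 1)
          (some [], sub r (r [] + 1)) (Nat.find hr) hmin
        have hfin : (step (sub b (r [] + 1)))^[Nat.find hr] (some [], sub r (r [] + 1)) =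
            (none, after (sub b (r [] + 1)) (sub r (r [] + 1))) := by
          refine Prod.ext (Nat.find_spec hr) ?_
          rw [after_eq, fin, dif_pos hr]
        rw [hfin, ← first_step b r h, ← Function.iterate_succ_apply] at h4
        apply shift_ev (Nat.find hr + 1)
        have h5 : ∀ t, (step b)^[t + (Nat.find hr + 1)] (some [], r) =
            (step b)^[t] (some [], next b r) := by
          intro t
          rw [Function.iterate_add_apply, h4]
          rfl
        simp only [h5]
        refine ih (next b r) (by rw [next_nil]; omega) ?_ (by rw [next_nil]; omega) ?_ v hv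
        · exact fun w => valid_next h hval w
        · intro h6
          exact h3 ((returns_iff b r).1 ((case_return b r h hret).1.2 ((returns_iff _ _).2 h6)))
      · have hr : ¬ Ret (sub b (r [] + 1)) (some [], sub r (r [] + 1)) :=
          fun h' => hret ((returns_iff _ _).2 h')
        apply shift_ev 1
        have h5 : ∀ t, (step b)^[t + 1] (some [], r) =
            emb (Function.update r [] (r [] + 1)) (r [] + 1)
              ((step (sub b (r [] + 1)))^[t] (some [], sub r (r [] + 1))) := by
          intro t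
          rw [Function.iterate_succ_apply, first_step b r h,
            iter_emb _ _ _ _ _ (fun t' _ ht' => hr ⟨t', ht'⟩)]
        simp only [h5, emb]
        rcases list_cases v with rfl | ⟨l, i, rfl⟩
        · simp only [put_nil]
          exact ⟨_, Eventually.of_forall fun t => rfl⟩
        · by_cases hi : i = r [] + 1
          · subst hi
            simp only [put_same]
            refine ihn (sub b (r [] + 1)) _ (sub r (r [] + 1)) (hval _) (fun w => hval _) rfl hr l ?_
            rw [List.length_append, List.length_singleton] at hv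
            omega
          · simp only [put_other _ hi]
            exact ⟨_, Eventually.of_forall fun t => rfl⟩

/-! ## The sequence of outputs of a vertex -/

section Psi

open Classical

/-- The number of `y < x` with `H y`. -/
noncomputable def cnt (H : ℕ → Prop) (x : ℕ) : ℕ := ((Finset.range x).filter H).card

/-- The sequence of zeros and ones produced by a vertex: at time `x` the particle which is at the
vertex is sent to the child `x % P` for the `x / P`-th time, and `H x` says that it escapes. -/
def Psi (P : ℕ) (H : ℕ → Prop) (m : ℕ) : Prop := ∃ x, H x ∧ m = x / P + cnt H x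

lemma count_zero_of {H : ℕ → Prop} {x : ℕ} (h : ∀ y < x, ¬ H y) : cnt H x = 0 := by
  rw [cnt, Finset.card_eq_zero, Finset.filter_eq_empty_iff]
  intro y hy
  exact h y (Finset.mem_range.1 hy)

lemma count_congr {H H' : ℕ → Prop} {x : ℕ} (h : ∀ y < x, (H y ↔ H' y)) :
    cnt H x = cnt H' x := by
  rw [cnt, cnt]
  congr 1
  ext y
  simp only [Finset.mem_filter, Finset.mem_range]
  exact ⟨fun h' => ⟨h'.1, (h y h'.1).1 h'.2⟩, fun h' => ⟨h'.1, (h y h'.1).2 h'.2⟩⟩

lemma count_pos_of {H : ℕ → Prop} {x y : ℕ} (hy : H y) (hyx : y < x) : 1 ≤ cnt H x := by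
  rw [cnt]
  exact Finset.card_pos.2 ⟨y, by simp [hyx, hy]⟩

lemma cnt_add (H : ℕ → Prop) (y P : ℕ) (h : ∀ x < P, ¬ H x) :
    cnt H (y + P) = cnt (fun x => H (x + P)) y := by
  rw [cnt, cnt]
  have e : (Finset.range (y + P)).filter H =
      ((Finset.range y).filter (fun x => H (x + P))).map (addRightEmbedding P) := by
    ext z
    simp only [Finset.mem_filter, Finset.mem_range, Finset.mem_map, addRightEmbedding_apply]
    constructor
    · rintro ⟨h1, h2⟩
      have h3 : P ≤ z := by
        by_contra hlt
        exact h z (by omega) h2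
      exact ⟨z - P, ⟨by omega, by rwa [Nat.sub_add_cancel h3]⟩, Nat.sub_add_cancel h3⟩
    · rintro ⟨a, ⟨h1, h2⟩, rfl⟩
      exact ⟨by omega, h2⟩
  rw [e, Finset.card_map]

lemma cnt_clear (H : ℕ → Prop) (x0 y : ℕ) (h1 : H x0) (hy : x0 < y) :
    cnt H y = cnt (fun x => H x ∧ x ≠ x0) y + 1 := by
  rw [cnt, cnt, ← Finset.card_insert_of_notMem (a := x0) (by simp)]
  congr 1
  ext z
  simp only [Finset.mem_filter, Finset.mem_range, Finset.mem_insert]
  constructor
  · rintro ⟨hz1, hz2⟩
    by_cases hz : z = x0
    · exact Or.inl hz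
    · exact Or.inr ⟨hz1, hz2, hz⟩
  · rintro (rfl | ⟨hz1, hz2, _⟩)
    · exact ⟨hy, h1⟩
    · exact ⟨hz1, hz2⟩

lemma psi_zero {P : ℕ} (hP : 0 < P) (H : ℕ → Prop) : Psi P H 0 ↔ ∃ x, x < P ∧ H x := by
  constructor
  · rintro ⟨x, hx, h⟩
    refine ⟨x, ?_, hx⟩
    have : x / P = 0 := (Nat.add_eq_zero_iff.1 h.symm).1
    rcases Nat.div_eq_zero_iff.1 this with h | h
    · omega
    · exact h
  · rintro ⟨x, hx, h⟩
    have hex : ∃ x, H x := ⟨x, h⟩
    refine ⟨Nat.find hex, Nat.find_spec hex, ?_⟩
    rw [count_zero_of (fun y hy => Nat.find_min hex hy), Nat.div_eq_of_lt]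
    exact (Nat.find_min' hex h).trans_lt hx

lemma psi_succ_empty {P : ℕ} (hP : 0 < P) (H : ℕ → Prop) (h : ∀ x < P, ¬ H x) (m : ℕ) :
    Psi P H (m + 1) ↔ Psi P (fun x => H (x + P)) m := by
  have key : ∀ y, cnt H (y + P) = cnt (fun x => H (x + P)) y := fun y => cnt_add H y P h
  constructor
  · rintro ⟨x, hx, hm⟩
    have hxP : P ≤ x := by
      by_contra hlt
      exact h x (by omega) hx
    obtain ⟨y, rfl⟩ : ∃ y, x = y + P := ⟨x - P, by omega⟩
    refine ⟨y, hx, ?_⟩
    rw [key, Nat.add_div_right _ hP] at hm
    omega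
  · rintro ⟨y, hy, hm⟩
    refine ⟨y + P, hy, ?_⟩
    rw [key, Nat.add_div_right _ hP]
    omega

lemma psi_succ_one {P : ℕ} (H : ℕ → Prop) {x0 : ℕ} (h0 : x0 < P) (h1 : H x0)
    (h2 : ∀ x < x0, ¬ H x) (m : ℕ) :
    Psi P H (m + 1) ↔ Psi P (fun x => H x ∧ x ≠ x0) m := by
  have key : ∀ y, x0 < y → cnt H y = cnt (fun x => H x ∧ x ≠ x0) y + 1 :=
    fun y hy => cnt_clear H x0 y h1 hy
  constructor
  · rintro ⟨x, hx, hm⟩
    have hne : x ≠ x0 := by
      rintro rfl
      rw [count_zero_of h2, Nat.div_eq_of_lt h0] at hm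
      omega
    have hlt : x0 < x := by
      by_contra hlt
      exact h2 x (by omega) hx
    refine ⟨x, ⟨hx, hne⟩, ?_⟩
    rw [key x hlt] at hm
    omega
  · rintro ⟨x, ⟨hx, hne⟩, hm⟩
    have hlt : x0 < x := by
      by_contra hlt
      exact h2 x (by omega) hx
    refine ⟨x, hx, ?_⟩
    rw [key x hlt]
    omega

/-- The times at which a particle escapes, in terms of the rotor `j` and the escape sequences `a i`
of the children. -/
def Hat (B j : ℕ) (a : ℕ → ℕ → Prop) (x : ℕ) : Prop :=
  x % (B + 1) ≠ 0 ∧ if x % (B + 1) ≤ j then 1 ≤ x / (B + 1) ∧ a (x % (B + 1)) (x / (B + 1) - 1)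
    else a (x % (B + 1)) (x / (B + 1))

/-- The escape sequence as a predicate. -/
def esc (b r : List ℕ → ℕ) (n : ℕ) : Prop := ¬ Returns b ((after b)^[n] r)

lemma esc_after (b r : List ℕ → ℕ) (n : ℕ) : esc b (after b r) n ↔ esc b r (n + 1) := by
  rw [esc, esc, Function.iterate_succ_apply]

/-- The times of escapes for a configuration. -/
def HH (b r : List ℕ → ℕ) : ℕ → Prop :=
  Hat (b []) (r []) (fun i => esc (sub b i) (sub r i))

lemma hh_last {b r : List ℕ → ℕ} (h : r [] = b []) :
    (∀ x < b [] + 1, ¬ HH b r x) ∧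
      (fun x => HH b r (x + (b [] + 1))) = HH b (Function.update r [] 0) := by
  constructor
  · intro x hx hh
    obtain ⟨h1, h2⟩ := hh
    rw [if_pos (by rw [h]; exact Nat.lt_succ_iff.1 (Nat.mod_lt _ (Nat.succ_pos _))),
      Nat.div_eq_of_lt hx] at h2
    omega
  · funext x
    have e1 : (x + (b [] + 1)) % (b [] + 1) = x % (b [] + 1) := Nat.add_mod_right _ _
    have e2 : (x + (b [] + 1)) / (b [] + 1) = x / (b [] + 1) + 1 :=
      Nat.add_div_right _ (Nat.succ_pos _)
    have e3 : x % (b [] + 1) ≤ r [] := by
      rw [h]; exact Nat.lt_succ_iff.1 (Nat.mod_lt _ (Nat.succ_pos _))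
    simp only [HH, Hat, e1, e2, if_pos e3, Function.update_self, sub_update_nil]
    by_cases h0 : x % (b [] + 1) = 0
    · simp [h0]
    · rw [if_neg (by omega)]
      simp

lemma hh_next {b r : List ℕ → ℕ} (h : r [] < b []) (x : ℕ) :
    HH b (next b r) x ↔ HH b r x ∧ x ≠ r [] + 1 := by
  have hmd := Nat.mod_add_div x (b [] + 1)
  by_cases hi : x % (b [] + 1) = r [] + 1
  · have e1 : HH b (next b r) x ↔ 1 ≤ x / (b [] + 1) ∧
        esc (sub b (r [] + 1)) (sub r (r [] + 1)) (x / (b [] + 1)) := by
      simp only [HH, Hat, hi, next_nil, if_pos le_rfl, sub_next_same, esc_after]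
      constructor
      · rintro ⟨_, h1, h2⟩
        rw [Nat.sub_add_cancel h1] at h2
        exact ⟨h1, h2⟩
      · rintro ⟨h1, h2⟩
        rw [Nat.sub_add_cancel h1]
        exact ⟨by omega, h1, h2⟩
    have e2 : HH b r x ↔ esc (sub b (r [] + 1)) (sub r (r [] + 1)) (x / (b [] + 1)) := by
      simp only [HH, Hat, hi]
      rw [if_neg (by omega)]
      exact ⟨fun h => h.2, fun h => ⟨by omega, h⟩⟩
    rw [e1, e2]
    constructor
    · rintro ⟨h1, h2⟩
      refine ⟨h2, fun hx => ?_⟩
      rw [hx, Nat.div_eq_of_lt (by omega)] at h1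
      omega
    · rintro ⟨h1, h2⟩
      refine ⟨?_, h1⟩
      by_contra h3
      have h4 : x / (b [] + 1) = 0 := Nat.eq_zero_of_not_pos h3
      rw [h4, hi] at hmd
      omega
  · have hx : x ≠ r [] + 1 := by
      rintro rfl
      exact hi (Nat.mod_eq_of_lt (by omega))
    have e : HH b (next b r) x ↔ HH b r x := by
      simp only [HH, Hat, next_nil, sub_next_other b r hi]
      by_cases hle : x % (b [] + 1) ≤ r []
      · rw [if_pos hle, if_pos (by omega)]
      · rw [if_neg hle, if_neg (by omega)]
    rw [e]
    exact ⟨fun h => ⟨h, hx⟩, fun h => h.1⟩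

/-- The escape sequence in terms of the escape sequences of the children. -/
lemma esc_eq (b : List ℕ → ℕ) (m : ℕ) : ∀ (k : ℕ) (r : List ℕ → ℕ), r [] ≤ b [] →
    b [] - r [] = k → (esc b r m ↔ Psi (b [] + 1) (HH b r) m) := by
  induction m with
  | zero =>
    intro k
    induction k with
    | zero =>
      intro r h1 h2
      have h : r [] = b [] := by omega
      rw [psi_zero (Nat.succ_pos _)]
      constructor
      · intro he
        exact absurd (case_last b r h).1 he
      · rintro ⟨x, hx, hx'⟩
        exact absurd hx' ((hh_last h).1 x hx)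
    | succ k ih =>
      intro r h1 h2
      have h : r [] < b [] := by omega
      by_cases hret : Returns (sub b (r [] + 1)) (sub r (r [] + 1))
      · have e1 : esc b r 0 ↔ esc b (next b r) 0 := not_congr (case_return b r h hret).1
        rw [e1, ih (next b r) (by rw [next_nil]; omega) (by rw [next_nil]; omega),
          psi_zero (Nat.succ_pos _), psi_zero (Nat.succ_pos _)]
        constructor
        · rintro ⟨x, hx, hx'⟩
          exact ⟨x, hx, ((hh_next h x).1 hx').1⟩
        · rintro ⟨x, hx, hx'⟩
          refine ⟨x, hx, (hh_next h x).2 ⟨hx', ?_⟩⟩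
          rintro rfl
          have h3 := hx'.2
          rw [Nat.mod_eq_of_lt hx, if_neg (by omega), Nat.div_eq_of_lt hx] at h3
          exact h3 hret
      · have e1 : esc b r 0 := (case_escape b r h hret).1
        refine ⟨fun _ => ?_, fun _ => e1⟩
        rw [psi_zero (Nat.succ_pos _)]
        refine ⟨r [] + 1, by omega, ?_⟩
        have e2 : (r [] + 1) % (b [] + 1) = r [] + 1 := Nat.mod_eq_of_lt (by omega)
        have e3 : (r [] + 1) / (b [] + 1) = 0 := Nat.div_eq_of_lt (by omega)
        refine ⟨by rw [e2]; omega, ?_⟩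
        rw [e2, e3, if_neg (by omega)]
        exact hret
  | succ m ihm =>
    intro k
    induction k with
    | zero =>
      intro r h1 h2
      have h : r [] = b [] := by omega
      rw [← esc_after, (case_last b r h).2,
        ihm _ (Function.update r [] 0) (by rw [Function.update_self]; omega) rfl,
        psi_succ_empty (Nat.succ_pos _) _ (hh_last h).1, (hh_last h).2]
    | succ k ih =>
      intro r h1 h2
      have h : r [] < b [] := by omega
      have e2 : (r [] + 1) % (b [] + 1) = r [] + 1 := Nat.mod_eq_of_lt (by omega)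
      have e3 : (r [] + 1) / (b [] + 1) = 0 := Nat.div_eq_of_lt (by omega)
      have e4 : HH b r (r [] + 1) ↔ esc (sub b (r [] + 1)) (sub r (r [] + 1)) 0 := by
        simp only [HH, Hat, e2, e3]
        rw [if_neg (by omega)]
        exact ⟨fun h => h.2, fun h => ⟨by omega, h⟩⟩
      by_cases hret : Returns (sub b (r [] + 1)) (sub r (r [] + 1))
      · have e1 : esc b r (m + 1) ↔ esc b (next b r) (m + 1) := by
          rw [← esc_after, ← esc_after, (case_return b r h hret).2]
        rw [e1, ih (next b r) (by rw [next_nil]; omega) (by rw [next_nil]; omega)]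
        have e5 : HH b (next b r) = HH b r := by
          funext x
          rw [eq_iff_iff, hh_next h]
          refine ⟨fun h => h.1, fun hx => ⟨hx, ?_⟩⟩
          rintro rfl
          exact (e4.1 hx) hret
        rw [e5]
      · rw [← esc_after, (case_escape b r h hret).2,
          ihm _ (next b r) (by rw [next_nil]; omega) rfl,
          psi_succ_one (HH b r) (x0 := r [] + 1) (by omega) (e4.2 hret)]
        · have e5 : HH b (next b r) = fun x => HH b r x ∧ x ≠ r [] + 1 := by
            funext x
            rw [eq_iff_iff, hh_next h]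
          rw [e5]
        · intro x hx hx'
          have h3 := hx'.2
          rw [Nat.mod_eq_of_lt (by omega), if_pos (by omega), Nat.div_eq_of_lt (by omega)] at h3
          omega

/-! ## Inserting zeros and replacing ones by zeros -/

lemma cnt_le (H : ℕ → Prop) (x : ℕ) : cnt H x ≤ x := by
  rw [cnt]
  exact (Finset.card_filter_le _ _).trans (by rw [Finset.card_range])

lemma cnt_split (H : ℕ → Prop) {x y : ℕ} (h : x ≤ y) :
    cnt H y = cnt H x + ((Finset.Ico x y).filter H).card := by
  rw [cnt, cnt, ← Finset.card_union_of_disjoint]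
  · congr 1
    ext z
    simp only [Finset.mem_filter, Finset.mem_range, Finset.mem_union, Finset.mem_Ico]
    constructor
    · rintro ⟨h1, h2⟩
      by_cases hz : z < x
      · exact Or.inl ⟨hz, h2⟩
      · exact Or.inr ⟨⟨by omega, h1⟩, h2⟩
    · rintro (⟨h1, h2⟩ | ⟨⟨h1, h1'⟩, h2⟩)
      · exact ⟨by omega, h2⟩
      · exact ⟨h1', h2⟩
  · rw [Finset.disjoint_left]
    intro z hz1 hz2
    simp only [Finset.mem_filter, Finset.mem_range, Finset.mem_Ico] at hz1 hz2
    omega

lemma cnt_lt {H : ℕ → Prop} {x y : ℕ} (hx : H x) (h : x < y) : cnt H x < cnt H y := by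
  rw [cnt_split H h.le]
  have : 0 < ((Finset.Ico x y).filter H).card := Finset.card_pos.2 ⟨x, by simp [h, hx]⟩
  omega

lemma cnt_inj {s H : ℕ → Prop} (X : ℕ → ℕ) {a a' y y' : ℕ} (ha : a ≤ a') (hy : y ≤ y')
    (hmap : ∀ m, a ≤ m → m < a' → s m → H (X m) ∧ y ≤ X m ∧ X m < y')
    (hinj : ∀ m m', s m → s m' → m < m' → X m < X m') :
    cnt s a' + cnt H y ≤ cnt H y' + cnt s a := by
  rw [cnt_split s ha, cnt_split H hy]
  have : ((Finset.Ico a a').filter s).card ≤ ((Finset.Ico y y').filter H).card := by
    apply Finset.card_le_card_of_injOn X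
    · intro m hm
      simp only [Finset.coe_filter, Finset.mem_Ico, Set.mem_ofPred_eq] at hm ⊢
      obtain ⟨h1, h2, h3⟩ := hmap m hm.1.1 hm.1.2 hm.2
      exact ⟨⟨h2, h3⟩, h1⟩
    · intro m hm m' hm' hmm
      simp only [Finset.coe_filter, Finset.mem_Ico, Set.mem_ofPred_eq] at hm hm'
      rcases lt_trichotomy m m' with h | h | h
      · have := hinj m m' hm.2 hm'.2 h
        omega
      · exact h
      · have := hinj m' m hm'.2 hm.2 h
        omega
  omega

/-- `s` is obtained from `e` by inserting zeros and replacing ones by zeros. -/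
def Sub (s e : ℕ → Prop) : Prop :=
  ∃ g : ℕ → ℕ, (∀ m, s m → e (g m) ∧ g m ≤ m) ∧
    ∀ m m', s m → s m' → m < m' → g m < g m' ∧ g m' + m ≤ g m + m'

lemma closure {P : ℕ} (hP : 0 < P) (H s : ℕ → Prop) (h : Sub s (Psi P H)) :
    ∃ H' : ℕ → Prop, s = Psi P H' ∧
      ∀ i < P, Sub (fun c => H' (c * P + i)) (fun c => H (c * P + i)) := by
  obtain ⟨g, hg1, hg2⟩ := h
  have hex : ∀ m, ∃ x, s m → (H x ∧ g m = x / P + cnt H x) := by
    intro m
    by_cases hm : s m
    · obtain ⟨x, hx⟩ := (hg1 m hm).1
      exact ⟨x, fun _ => hx⟩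
    · exact ⟨0, fun h => absurd h hm⟩
  choose X hX using hex
  have hXlt : ∀ m m', s m → s m' → m < m' → X m < X m' := by
    intro m m' hm hm' hlt
    by_contra hcon
    have h1 := (hg2 m m' hm hm' hlt).1
    have h2 := hX m hm
    have h3 := hX m' hm'
    have h4 : X m' / P ≤ X m / P := Nat.div_le_div_right (by omega)
    rcases eq_or_lt_of_le (not_lt.1 hcon) with h5 | h5
    · rw [h5] at h3
      omega
    · have h6 := cnt_lt h3.1 h5
      omega
  -- rounds
  have K1 : ∀ m, s m → X m / P + cnt s m ≤ m := by
    intro m hm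
    have h1 := (hg1 m hm).2
    have h2 := (hX m hm).2
    have h3 := cnt_inj (s := s) (H := H) X (a := 0) (a' := m) (y := 0) (y' := X m)
      (Nat.zero_le _) (Nat.zero_le _)
      (fun m0 _ hlt hm0 => ⟨(hX m0 hm0).1, Nat.zero_le _, hXlt m0 m hm0 hm hlt⟩) hXlt
    have h4 : cnt H 0 = 0 := count_zero_of (by intro y hy; omega)
    have h5 : cnt s 0 = 0 := count_zero_of (by intro y hy; omega)
    omega
  have K2 : ∀ m m', s m → s m' → m < m' →
      X m' / P + (m - cnt s m) ≤ X m / P + (m' - cnt s m') := by
    intro m m' hm hm' hlt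
    have h1 := (hg2 m m' hm hm' hlt).2
    have h2 := (hX m hm).2
    have h2' := (hX m' hm').2
    have h3 := cnt_inj (s := s) (H := H) X (a := m) (a' := m') (y := X m) (y' := X m')
      hlt.le (hXlt m m' hm hm' hlt).le
      (fun m0 hle hlt' hm0 => ⟨(hX m0 hm0).1, by
        rcases eq_or_lt_of_le hle with rfl | h
        · exact le_rfl
        · exact (hXlt m m0 hm hm0 h).le, hXlt m0 m' hm0 hm' hlt'⟩) hXlt
    have h4 := cnt_le s m
    have h5 := cnt_le s m'
    omega
  set Y : ℕ → ℕ := fun m => (m - cnt s m) * P + X m % P with hY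
  have hYdiv : ∀ m, Y m / P = m - cnt s m := by
    intro m
    simp only [hY]
    rw [Nat.add_comm, Nat.add_mul_div_right _ _ hP, Nat.div_eq_of_lt (Nat.mod_lt _ hP), zero_add]
  have hYmod : ∀ m, Y m % P = X m % P := by
    intro m
    simp only [hY]
    rw [Nat.add_comm, Nat.add_mul_mod_self_right, Nat.mod_mod]
  have hYlt : ∀ m m', s m → s m' → m < m' → Y m < Y m' := by
    intro m m' hm hm' hlt
    have h1 := hXlt m m' hm hm' hlt
    have h2 := K2 m m' hm hm' hlt
    have h3 : X m / P ≤ X m' / P := Nat.div_le_div_right h1.le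
    have h4 : m - cnt s m ≤ m' - cnt s m' := by omega
    have h5 := Nat.mod_lt (X m) hP
    have h6 := Nat.mod_lt (X m') hP
    have e1 := Nat.div_add_mod (X m) P
    have e2 := Nat.div_add_mod (X m') P
    simp only [hY]
    rcases eq_or_lt_of_le h4 with h7 | h7
    · have h8 : X m / P = X m' / P := by omega
      rw [h8] at e1
      rw [h7]
      omega
    · have h8 : (m - cnt s m + 1) * P ≤ (m' - cnt s m') * P := Nat.mul_le_mul_right _ h7
      rw [Nat.add_mul] at h8
      omega
  have hYinj : ∀ m m', s m → s m' → Y m < Y m' → m < m' := by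
    intro m m' hm hm' hlt
    rcases lt_trichotomy m m' with h | h | h
    · exact h
    · rw [h] at hlt
      omega
    · have := hYlt m' m hm' hm h
      omega
  have hcnt : ∀ m, s m → cnt (fun y => ∃ m, s m ∧ y = Y m) (Y m) = cnt s m := by
    intro m hm
    rw [cnt, cnt]
    have e : (Finset.range (Y m)).filter (fun y => ∃ m, s m ∧ y = Y m) =
        ((Finset.range m).filter s).image Y := by
      ext z
      simp only [Finset.mem_filter, Finset.mem_range, Finset.mem_image]
      constructor
      · rintro ⟨h1, m0, h2, rfl⟩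
        exact ⟨m0, ⟨hYinj m0 m h2 hm h1, h2⟩, rfl⟩
      · rintro ⟨m0, ⟨h1, h2⟩, rfl⟩
        exact ⟨hYlt m0 m h2 hm h1, m0, h2, rfl⟩
    rw [e, Finset.card_image_of_injOn]
    intro m1 h1 m2 h2 h12
    simp only [Finset.coe_filter, Finset.mem_range, Set.mem_ofPred_eq] at h1 h2
    rcases lt_trichotomy m1 m2 with h | h | h
    · have := hYlt m1 m2 h1.2 h2.2 h
      omega
    · exact h
    · have := hYlt m2 m1 h2.2 h1.2 h
      omega
  refine ⟨fun y => ∃ m, s m ∧ y = Y m, ?_, ?_⟩
  · funext m
    rw [eq_iff_iff]
    constructor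
    · intro hm
      refine ⟨Y m, ⟨m, hm, rfl⟩, ?_⟩
      rw [hcnt m hm, hYdiv]
      have := cnt_le s m
      omega
    · rintro ⟨y, ⟨m1, hm1, rfl⟩, hm⟩
      rw [hcnt m1 hm1, hYdiv] at hm
      have := cnt_le s m1
      have e : m = m1 := by omega
      rw [e]
      exact hm1
  · intro i hi
    have hex : ∀ d, ∃ m, (∃ m, s m ∧ d * P + i = Y m) → (s m ∧ d * P + i = Y m) := by
      intro d
      by_cases h : ∃ m, s m ∧ d * P + i = Y m
      · obtain ⟨m, hm⟩ := h
        exact ⟨m, fun _ => hm⟩
      · exact ⟨0, fun h' => absurd h' h⟩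
    choose M hM using hex
    have hd : ∀ d, (d * P + i) / P = d := by
      intro d
      rw [Nat.add_comm, Nat.add_mul_div_right _ _ hP, Nat.div_eq_of_lt hi, zero_add]
    have hdm : ∀ d, (d * P + i) % P = i := by
      intro d
      rw [Nat.add_comm, Nat.add_mul_mod_self_right, Nat.mod_eq_of_lt hi]
    have hfacts : ∀ d, (∃ m, s m ∧ d * P + i = Y m) →
        s (M d) ∧ d = M d - cnt s (M d) ∧ X (M d) = X (M d) / P * P + i := by
      intro d h
      obtain ⟨h1, h2⟩ := hM d h
      refine ⟨h1, ?_, ?_⟩
      · rw [← hYdiv, ← h2, hd]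
      · have e1 : X (M d) % P = i := by rw [← hYmod, ← h2, hdm]
        have e2 := Nat.div_add_mod (X (M d)) P
        rw [e1] at e2
        rw [Nat.mul_comm]
        exact e2.symm
    refine ⟨fun d => X (M d) / P, ?_, ?_⟩
    · intro d h
      obtain ⟨h1, h2, h3⟩ := hfacts d h
      refine ⟨?_, ?_⟩
      · simp only
        rw [← h3]
        exact (hX _ h1).1
      · have := K1 _ h1
        simp only
        omega
    · intro d d' h h' hlt
      obtain ⟨h1, h2, h3⟩ := hfacts d h
      obtain ⟨h1', h2', h3'⟩ := hfacts d' h'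
      have hlt2 : d * P + i < d' * P + i := by
        have := Nat.mul_lt_mul_of_pos_right hlt hP
        omega
      rw [(hM d h).2, (hM d' h').2] at hlt2
      have hMlt := hYinj _ _ h1 h1' hlt2
      have hXX := hXlt _ _ h1 h1' hMlt
      have hK := K2 _ _ h1 h1' hMlt
      simp only
      refine ⟨?_, by omega⟩
      by_contra hcon
      have : X (M d') / P * P ≤ X (M d) / P * P := Nat.mul_le_mul_right _ (by omega)
      omega

/-! ## Realizing sequences -/

/-- `s` is below some escape sequence. -/
def XX (b : List ℕ → ℕ) (s : ℕ → Prop) : Prop := ∃ r, (∀ v, r v ≤ b v) ∧ Sub s (esc b r)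

lemma tail1 {s A : ℕ → Prop} (h : Sub s (fun c => 1 ≤ c ∧ A (c - 1))) :
    Sub (fun c => s (c + 1)) A := by
  obtain ⟨g, h1, h2⟩ := h
  refine ⟨fun c => g (c + 1) - 1, ?_, ?_⟩
  · intro m hm
    obtain ⟨⟨h3, h4⟩, h5⟩ := h1 (m + 1) hm
    exact ⟨h4, by simp only; omega⟩
  · intro m m' hm hm' hlt
    have h3 := h2 (m + 1) (m' + 1) hm hm' (by omega)
    have h4 := (h1 (m + 1) hm).1.1
    have h5 := (h1 (m' + 1) hm').1.1
    simp only
    omega

lemma tail2 {b r : List ℕ → ℕ} (hr : ∀ v, r v ≤ b v) {s : ℕ → Prop} (h : Sub s (esc b r))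
    (h0 : ¬ s 0) : XX b (fun c => s (c + 1)) := by
  obtain ⟨g, h1, h2⟩ := h
  by_cases hz : ∃ m0, s m0 ∧ g m0 = 0
  · obtain ⟨m0, hm0, hg0⟩ := hz
    have hm0' : m0 ≠ 0 := by
      rintro rfl
      exact h0 hm0
    refine ⟨r, hr, fun c => g (c + 1), ?_, ?_⟩
    · intro m hm
      refine ⟨(h1 (m + 1) hm).1, ?_⟩
      simp only
      rcases lt_trichotomy m0 (m + 1) with h | h | h
      · have := h2 m0 (m + 1) hm0 hm h
        omega
      · rw [← h]
        omega
      · have := h2 (m + 1) m0 hm hm0 h
        omega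
    · intro m m' hm hm' hlt
      have h3 := h2 (m + 1) (m' + 1) hm hm' (by omega)
      simp only
      omega
  · push Not at hz
    refine ⟨after b r, valid_after hr, fun c => g (c + 1) - 1, ?_, ?_⟩
    · intro m hm
      have h3 := hz (m + 1) hm
      have h4 := h1 (m + 1) hm
      refine ⟨?_, by simp only; omega⟩
      rw [esc_after, Nat.sub_add_cancel (by omega)]
      exact h4.1
    · intro m m' hm hm' hlt
      have h3 := h2 (m + 1) (m' + 1) hm hm' (by omega)
      have h4 := hz (m + 1) hm
      simp only
      omega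

lemma xx_unfold {b : List ℕ → ℕ} {s : ℕ → Prop} (h : XX b s) :
    ∃ (j : ℕ) (a : ℕ → ℕ → Prop), j ≤ b [] ∧ (∀ i, XX (sub b i) (a i)) ∧
      s = Psi (b [] + 1) (Hat (b []) j a) ∧ (¬ s 0 → j = b []) ∧
      (s 0 → j < b [] ∧ a (j + 1) 0) := by
  obtain ⟨r, hr, hs⟩ := h
  have hP : 0 < b [] + 1 := Nat.succ_pos _
  have he : esc b r = Psi (b [] + 1) (HH b r) := by
    funext m
    rw [eq_iff_iff]
    exact esc_eq b m _ r (hr []) rfl
  rw [he] at hs
  obtain ⟨H', hsH, hcol⟩ := closure hP _ _ hs
  have hdiv : ∀ c i, i < b [] + 1 → (c * (b [] + 1) + i) / (b [] + 1) = c := by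
    intro c i hi
    rw [Nat.add_comm, Nat.add_mul_div_right _ _ hP, Nat.div_eq_of_lt hi, zero_add]
  have hmod : ∀ c i, i < b [] + 1 → (c * (b [] + 1) + i) % (b [] + 1) = i := by
    intro c i hi
    rw [Nat.add_comm, Nat.add_mul_mod_self_right, Nat.mod_eq_of_lt hi]
  have hcol0 : ∀ c, ¬ H' (c * (b [] + 1) + 0) := by
    intro c hc
    obtain ⟨g, h1, _⟩ := hcol 0 hP
    have h2 := (h1 c hc).1.1
    exact h2 (hmod _ _ hP)
  have hcolle : ∀ i, 1 ≤ i → i ≤ r [] → ¬ H' i := by
    intro i hi1 hi2 hi
    have hiP : i < b [] + 1 := by have := hr []; omega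
    obtain ⟨g, h1, _⟩ := hcol i hiP
    have h2 := h1 0 (by simpa using hi)
    have h3 : g 0 = 0 := by omega
    have h4 := h2.1.2
    rw [h3, hmod _ _ hiP, if_pos hi2, hdiv _ _ hiP] at h4
    omega
  -- the rotor
  obtain ⟨j, hjB, hrj, hj0, hj1, hj2⟩ : ∃ j, j ≤ b [] ∧ r [] ≤ j ∧ (∀ i, 1 ≤ i → i ≤ j → ¬ H' i) ∧
      (¬ s 0 → j = b []) ∧ (s 0 → j < b [] ∧ H' (j + 1)) := by
    by_cases h0 : s 0
    · have h1 := h0
      rw [hsH, psi_zero hP] at h1
      obtain ⟨x, hx, hx'⟩ := h1
      have hex : ∃ x, H' x := ⟨x, hx'⟩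
      have hle : Nat.find hex ≤ x := Nat.find_min' hex hx'
      have hspec := Nat.find_spec hex
      have hne : Nat.find hex ≠ 0 := by
        intro h
        rw [h] at hspec
        exact hcol0 0 (by simpa using hspec)
      have hgt : r [] < Nat.find hex := by
        by_contra hcon
        exact hcolle _ (by omega) (by omega) hspec
      refine ⟨Nat.find hex - 1, by omega, by omega, ?_, fun h => absurd h0 h, fun _ => ⟨by omega, ?_⟩⟩
      · intro i _ hi
        exact Nat.find_min hex (by omega)
      · rw [Nat.sub_add_cancel (by omega)]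
        exact hspec
    · refine ⟨b [], le_rfl, hr [], ?_, fun _ => rfl, fun h => absurd h h0⟩
      intro i _ hi hH
      apply h0
      rw [hsH, psi_zero hP]
      exact ⟨i, by omega, hH⟩
  refine ⟨j, fun i => if 1 ≤ i ∧ i ≤ b [] then
      (if i ≤ j then fun c => H' ((c + 1) * (b [] + 1) + i) else fun c => H' (c * (b [] + 1) + i))
      else fun _ => False, hjB, ?_, ?_, hj1, ?_⟩
  · intro i
    have hsubr : ∀ v, sub r i v ≤ sub b i v := fun v => hr _
    by_cases hi : 1 ≤ i ∧ i ≤ b []
    · simp only [if_pos hi]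
      have hiP : i < b [] + 1 := by omega
      have hS := hcol i hiP
      by_cases hir : i ≤ r []
      · have e : (fun c => HH b r (c * (b [] + 1) + i)) =
            fun c => 1 ≤ c ∧ esc (sub b i) (sub r i) (c - 1) := by
          funext c
          simp only [HH, Hat, hmod _ _ hiP, hdiv _ _ hiP, if_pos hir]
          rw [eq_iff_iff]
          exact ⟨fun h => h.2, fun h => ⟨by omega, h⟩⟩
        rw [e] at hS
        rw [if_pos (hir.trans hrj)]
        exact ⟨sub r i, hsubr, tail1 hS⟩
      · have e : (fun c => HH b r (c * (b [] + 1) + i)) = esc (sub b i) (sub r i) := by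
          funext c
          simp only [HH, Hat, hmod _ _ hiP, hdiv _ _ hiP, if_neg hir]
          rw [eq_iff_iff]
          exact ⟨fun h => h.2, fun h => ⟨by omega, h⟩⟩
        rw [e] at hS
        by_cases hij : i ≤ j
        · rw [if_pos hij]
          exact tail2 hsubr hS (by simpa using hj0 i hi.1 hij)
        · rw [if_neg hij]
          exact ⟨sub r i, hsubr, hS⟩
    · simp only [if_neg hi]
      exact ⟨sub r i, hsubr, id, fun m hm => absurd hm (by simp), fun m m' hm => absurd hm (by simp)⟩
  · have e : H' = Hat (b []) j (fun i => if 1 ≤ i ∧ i ≤ b [] then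
      (if i ≤ j then fun c => H' ((c + 1) * (b [] + 1) + i) else fun c => H' (c * (b [] + 1) + i))
      else fun _ => False) := by
      funext x
      rw [eq_iff_iff]
      have hx : x = x / (b [] + 1) * (b [] + 1) + x % (b [] + 1) := by
        rw [Nat.mul_comm]
        exact (Nat.div_add_mod x (b [] + 1)).symm
      have hlt := Nat.mod_lt x hP
      by_cases h0 : x % (b [] + 1) = 0
      · constructor
        · intro h
          rw [hx, h0] at h
          exact absurd h (hcol0 _)
        · intro h
          exact absurd h0 h.1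
      · have hi : 1 ≤ x % (b [] + 1) ∧ x % (b [] + 1) ≤ b [] := by omega
        simp only [Hat, if_pos hi]
        by_cases hij : x % (b [] + 1) ≤ j
        · simp only [if_pos hij]
          constructor
          · intro h
            have hc : 1 ≤ x / (b [] + 1) := by
              by_contra hc
              have hc' : x / (b [] + 1) = 0 := Nat.eq_zero_of_not_pos hc
              rw [hc'] at hx
              have hx2 : x = x % (b [] + 1) := by simpa using hx
              rw [hx2] at h
              exact hj0 _ hi.1 hij h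
            refine ⟨h0, hc, ?_⟩
            rw [Nat.sub_add_cancel hc, ← hx]
            exact h
          · rintro ⟨_, hc, h⟩
            rw [Nat.sub_add_cancel hc, ← hx] at h
            exact h
        · simp only [if_neg hij]
          rw [← hx]
          exact ⟨fun h => ⟨h0, h⟩, fun h => h.2⟩
    rw [← e]
    exact hsH
  · intro h0
    obtain ⟨h1, h2⟩ := hj2 h0
    refine ⟨h1, ?_⟩
    simp only [if_pos (show 1 ≤ j + 1 ∧ j + 1 ≤ b [] by omega),
      if_neg (show ¬ j + 1 ≤ j by omega)]
    simpa using h2

/-- The chosen rotor. -/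
noncomputable def jj {b : List ℕ → ℕ} {s : ℕ → Prop} (h : XX b s) : ℕ := (xx_unfold h).choose

/-- The chosen sequences of the children. -/
noncomputable def aa {b : List ℕ → ℕ} {s : ℕ → Prop} (h : XX b s) : ℕ → ℕ → Prop :=
  (xx_unfold h).choose_spec.choose

lemma jj_spec {b : List ℕ → ℕ} {s : ℕ → Prop} (h : XX b s) :
    jj h ≤ b [] ∧ (∀ i, XX (sub b i) (aa h i)) ∧
      s = Psi (b [] + 1) (Hat (b []) (jj h) (aa h)) ∧ (¬ s 0 → jj h = b []) ∧
      (s 0 → jj h < b [] ∧ aa h (jj h + 1) 0) := (xx_unfold h).choose_spec.choose_spec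

/-- The subtree at `v`. -/
def at' (b : List ℕ → ℕ) (v : List ℕ) : List ℕ → ℕ := fun l => b (l ++ v)

lemma sub_at (b : List ℕ → ℕ) (v : List ℕ) (i : ℕ) : sub (at' b v) i = at' b (i :: v) := by
  funext l
  simp [sub, at']

lemma at_nil (b : List ℕ → ℕ) : at' b [] = b := by
  funext l
  simp [at']

/-- The sequences chosen for all vertices. -/
noncomputable def lab {b : List ℕ → ℕ} {s : ℕ → Prop} (h : XX b s) :
    (v : List ℕ) → {t : ℕ → Prop // XX (at' b v) t}
  | [] => ⟨s, by rw [at_nil]; exact h⟩
  | i :: v => ⟨aa (lab h v).2 i, by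
      rw [← sub_at]
      exact (jj_spec (lab h v).2).2.1 i⟩

/-- A walk that goes down a ray does not return. -/
lemma ray (b r : List ℕ → ℕ) (u : ℕ → List ℕ) (h0 : u 0 = [])
    (hs : ∀ k, u (k + 1) = (r (u k) + 1) :: u k) (hlt : ∀ k, r (u k) < b (u k)) :
    ¬ Returns b r := by
  have hlen : ∀ k, (u k).length = k := by
    intro k
    induction k with
    | zero => rw [h0]; rfl
    | succ k ih => rw [hs, List.length_cons, ih]
  have key : ∀ t, ∃ c : List ℕ → ℕ, (step b)^[t] (some [], r) = (some (u t), c) ∧
      ∀ k, t ≤ k → c (u k) = r (u k) := by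
    intro t
    induction t with
    | zero => exact ⟨r, by rw [h0]; rfl, fun k _ => rfl⟩
    | succ t ih =>
      obtain ⟨c, h1, h2⟩ := ih
      have h3 : (c (u t) + 1) % (b (u t) + 1) = r (u t) + 1 := by
        rw [h2 t le_rfl]
        exact Nat.mod_eq_of_lt (by have := hlt t; omega)
      refine ⟨Function.update c (u t) (r (u t) + 1), ?_, ?_⟩
      · rw [Function.iterate_succ_apply', h1]
        show (if (c (u t) + 1) % (b (u t) + 1) = 0 then parent (u t)
          else some ((c (u t) + 1) % (b (u t) + 1) :: u t),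
          Function.update c (u t) ((c (u t) + 1) % (b (u t) + 1))) = _
        rw [h3, if_neg (by omega), hs]
      · intro k hk
        rw [Function.update_of_ne, h2 k (by omega)]
        intro h
        have := congrArg List.length h
        rw [hlen, hlen] at this
        omega
  rw [returns_iff]
  rintro ⟨t, ht⟩
  obtain ⟨c, hc, _⟩ := key t
  rw [hc] at ht
  simp at ht

lemma psi_congr1 {P : ℕ} {H H' : ℕ → Prop} {m : ℕ}
    (h : ∀ x, x / P ≤ m → (H x ↔ H' x)) : Psi P H m → Psi P H' m := by
  rintro ⟨x, hx, hm⟩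
  have hle : x / P ≤ m := by omega
  refine ⟨x, (h x hle).1 hx, ?_⟩
  rw [hm]
  congr 1
  apply count_congr
  intro y hy
  exact h y ((Nat.div_le_div_right hy.le).trans hle)

lemma psi_congr2 {P : ℕ} {H H' : ℕ → Prop} {m n : ℕ} (hn : 1 ≤ n) (hm : m ≤ n)
    (h : ∀ x, x / P < n → (H x ↔ H' x)) (h0 : ∃ x < P, H x) : Psi P H m → Psi P H' m := by
  rintro ⟨x, hx, hmx⟩
  obtain ⟨x0, hx0, hH0⟩ := h0
  have hlt : x / P < n := by
    by_contra hcon
    have h1 : cnt H x = 0 := by omega
    have h2 : P ≤ x := by
      by_contra h3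
      rw [Nat.div_eq_of_lt (by omega)] at hcon
      omega
    have h3 := count_pos_of hH0 (show x0 < x by omega)
    omega
  refine ⟨x, (h x hlt).1 hx, ?_⟩
  rw [hmx]
  congr 1
  apply count_congr
  intro y hy
  exact h y ((Nat.div_le_div_right hy.le).trans_lt hlt)

/-- Every sequence below an escape sequence is an escape sequence. -/
lemma realize {b : List ℕ → ℕ} {s : ℕ → Prop} (h : XX b s) :
    ∃ r : List ℕ → ℕ, (∀ v, r v ≤ b v) ∧ esc b r = s := by
  set r : List ℕ → ℕ := fun v => jj (lab h v).2 with hrdef
  have hat : ∀ v, at' r v [] = jj (lab h v).2 := fun v => rfl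
  have hbt : ∀ v, at' b v [] = b v := fun v => rfl
  have hv : ∀ v, r v ≤ b v := fun v => (jj_spec (lab h v).2).1
  have hs1 : ∀ v, (lab h v).1 = Psi (b v + 1) (Hat (b v) (r v) (fun i => (lab h (i :: v)).1)) :=
    fun v => (jj_spec (lab h v).2).2.2.1
  have hs2 : ∀ v, ¬ (lab h v).1 0 → r v = b v := fun v => (jj_spec (lab h v).2).2.2.2.1
  have hs3 : ∀ v, (lab h v).1 0 → r v < b v ∧ (lab h ((r v + 1) :: v)).1 0 :=
    fun v => (jj_spec (lab h v).2).2.2.2.2
  have hesc : ∀ v m, esc (at' b v) (at' r v) m ↔
      Psi (b v + 1) (Hat (b v) (r v) (fun i => esc (at' b (i :: v)) (at' r (i :: v)))) m := by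
    intro v m
    rw [esc_eq (at' b v) m _ (at' r v) (hv v) rfl]
    have e : HH (at' b v) (at' r v) =
        Hat (b v) (r v) (fun i => esc (at' b (i :: v)) (at' r (i :: v))) := by
      unfold HH
      simp only [sub_at]
      rfl
    rw [e]
    exact Iff.rfl
  have base : ∀ v, esc (at' b v) (at' r v) 0 ↔ (lab h v).1 0 := by
    intro v
    by_cases h0 : (lab h v).1 0
    · refine ⟨fun _ => h0, fun _ => ?_⟩
      let u : ℕ → List ℕ := fun k => Nat.rec [] (fun _ l => (at' r v l + 1) :: l) k
      have hu : ∀ k, (lab h (u k ++ v)).1 0 := by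
        intro k
        induction k with
        | zero => exact h0
        | succ k ih => exact (hs3 _ ih).2
      exact ray (at' b v) (at' r v) u rfl (fun k => rfl) (fun k => (hs3 _ (hu k)).1)
    · refine ⟨fun h' => ?_, fun h' => absurd h' h0⟩
      exact absurd (case_last (at' b v) (at' r v) (hs2 v h0)).1 h'
  have main : ∀ n v m, m < n → (esc (at' b v) (at' r v) m ↔ (lab h v).1 m) := by
    intro n
    induction n with
    | zero => intro v m hm; omega
    | succ n ih =>
      intro v m hm
      rcases Nat.eq_zero_or_pos n with rfl | hn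
      · have : m = 0 := by omega
        subst this
        exact base v
      have hP : 0 < b v + 1 := Nat.succ_pos _
      rw [hesc v m, hs1 v]
      by_cases h0 : (lab h v).1 0
      · have hag : ∀ x, x / (b v + 1) < n →
            (Hat (b v) (r v) (fun i => esc (at' b (i :: v)) (at' r (i :: v))) x ↔
              Hat (b v) (r v) (fun i => (lab h (i :: v)).1) x) := by
          intro x hx
          simp only [Hat]
          by_cases hle : x % (b v + 1) ≤ r v
          · rw [if_pos hle, if_pos hle, ih _ _ (show x / (b v + 1) - 1 < n by omega)]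
          · rw [if_neg hle, if_neg hle, ih _ _ hx]
        have h1 := h0
        rw [hs1 v, psi_zero hP] at h1
        obtain ⟨x, hx, hx'⟩ := h1
        have hx0 : x / (b v + 1) < n := by
          rw [Nat.div_eq_of_lt hx]
          exact hn
        constructor
        · exact psi_congr2 hn (by omega) hag ⟨x, hx, (hag x hx0).2 hx'⟩
        · exact psi_congr2 hn (by omega) (fun y hy => (hag y hy).symm) ⟨x, hx, hx'⟩
      · have hr' := hs2 v h0
        have hag : ∀ x, x / (b v + 1) ≤ m →
            (Hat (b v) (r v) (fun i => esc (at' b (i :: v)) (at' r (i :: v))) x ↔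
              Hat (b v) (r v) (fun i => (lab h (i :: v)).1) x) := by
          intro x hx
          have hle : x % (b v + 1) ≤ r v := by
            rw [hr']
            exact Nat.lt_succ_iff.1 (Nat.mod_lt _ hP)
          simp only [Hat]
          rw [if_pos hle, if_pos hle, ih _ _ (show x / (b v + 1) - 1 < n by omega)]
        constructor
        · exact psi_congr1 hag
        · exact psi_congr1 (fun y hy => (hag y hy).symm)
  refine ⟨r, hv, ?_⟩
  funext m
  rw [eq_iff_iff]
  have h1 := main (m + 1) [] m (by omega)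
  have h2 : esc (at' b []) (at' r []) m ↔ esc b r m := by rw [at_nil, at_nil]
  exact h2.symm.trans h1

end Psi

/-! ## The theorem -/

/-- **Main theorem.** Let `T` be the tree in which every vertex `v ≠ ρ` has `b v` children, `r` a
rotor configuration on `T`, and `e'` a sequence which is termwise at most the escape sequence of
`(T, r)`. Then `e'` is the escape sequence of some rotor configuration `r'` on `T`. -/
theorem result (b : List ℕ → ℕ) (r : List ℕ → ℕ) (hr : ∀ v, r v ≤ b v) (e' : ℕ → ℕ)
    (he : ∀ n, e' n ≤ escSeq b r n) :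
    ∃ r' : List ℕ → ℕ, (∀ v, r' v ≤ b v) ∧ escSeq b r' = e' := by
  classical
  have hle : ∀ n, e' n ≤ 1 := by
    intro n
    refine (he n).trans ?_
    rw [escSeq]
    split_ifs <;> omega
  have hX : XX b (fun n => e' n = 1) := by
    refine ⟨r, hr, id, ?_, ?_⟩
    · intro m hm
      refine ⟨?_, le_rfl⟩
      intro hret
      have hret' : Returns b ((after b)^[m] r) := hret
      have := he m
      rw [escSeq, if_pos hret'] at this
      omega
    · intro m m' _ _ h
      exact ⟨h, by show m' + m ≤ m + m'; omega⟩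
  obtain ⟨r', hr', hesc⟩ := realize hX
  refine ⟨r', hr', ?_⟩
  funext n
  have h1 := congrFun hesc n
  rw [eq_iff_iff, esc] at h1
  rw [escSeq]
  have h2 := hle n
  split_ifs with h
  · have : ¬ e' n = 1 := fun h' => (h1.2 h') h
    omega
  · exact (h1.1 h).symm

end Pool.Agent.Results.MP_4b601f_co.DownwardClosure
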